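import Pool.Agent.Lev.All2

set_option autoImplicit false

/-!
Finite description of the semigroup `E(P)` of all rational functions that share the measure of
maximal entropy with a non-special rational function `P`.
-/

namespace Pool.Agent.Results.MP_297da0_an.FiniteDescription

open Filter Topology MeasureTheory

/-- the composition `f ∘ g` of rational functions -/
noncomputable def comp (f g : RatFunc ℂ) : RatFunc ℂ :=
  Polynomial.aeval g f.num / Polynomial.aeval g f.denom

/-- the degree of a rational function -/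
noncomputable def deg (f : RatFunc ℂ) : ℕ := max f.num.natDegree f.denom.natDegree

/-- the `n`-th compositional iterate, `iter P 0 = z` -/
noncomputable def iter (P : RatFunc ℂ) (n : ℕ) : RatFunc ℂ := (comp P)^[n] RatFunc.X

/-- `f` is a Lattès map: there are a lattice `ℤω₁ + ℤω₂`, an affine map `z ↦ a z + b` with
`a ω₁, a ω₂` in the lattice and a nonconstant meromorphic function `θ` with periods `ω₁, ω₂` such
that `f (θ z) = θ (a z + b)` -/
def Lattes (f : RatFunc ℂ) : Prop :=
  ∃ (ω₁ ω₂ a b : ℂ) (θ : ℂ → ℂ), LinearIndependent ℝ ![ω₁, ω₂] ∧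
    (∃ m₁ n₁ m₂ n₂ : ℤ, a * ω₁ = (m₁ : ℂ) * ω₁ + (n₁ : ℂ) * ω₂ ∧
      a * ω₂ = (m₂ : ℂ) * ω₁ + (n₂ : ℂ) * ω₂) ∧
    MeromorphicOn θ Set.univ ∧
    (∀ z : ℂ, θ (z + ω₁) = θ z ∧ θ (z + ω₂) = θ z) ∧
    (∃ z : ℂ, DifferentiableAt ℂ θ z ∧ deriv θ z ≠ 0) ∧
    (∀ᶠ z in codiscrete ℂ, RatFunc.eval (RingHom.id ℂ) (θ z) f = θ (a * z + b))

/-- `f` is conjugate by a Möbius transformation `m` to `z ^ n`, `z ^ (-n)`, `T_n` or `-T_n` -/
def PowerOrChebyshev (f : RatFunc ℂ) : Prop :=
  ∃ m : RatFunc ℂ, deg m = 1 ∧ ∃ n : ℕ,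
    (comp m f = comp (RatFunc.X ^ n) m ∨ comp m f = comp (RatFunc.X ^ n)⁻¹ m ∨
      comp m f = comp (algebraMap (Polynomial ℂ) (RatFunc ℂ)
        (Polynomial.Chebyshev.T ℂ (n : ℤ))) m ∨
      comp m f = comp (-(algebraMap (Polynomial ℂ) (RatFunc ℂ)
        (Polynomial.Chebyshev.T ℂ (n : ℤ)))) m)

/-- special rational functions -/
def Special (f : RatFunc ℂ) : Prop := Lattes f ∨ PowerOrChebyshev f

/-- the finite solutions `w` of `f w = z`, with multiplicity -/
noncomputable def fibre (f : RatFunc ℂ) (z : ℂ) : Multiset ℂ :=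
  (f.num - Polynomial.C z * f.denom).roots

/-- `μ` is the measure of maximal entropy of `P`: it is a probability measure and for almost every
point `z` the normalised counting measures `(deg P) ^ (-n) * ∑_{P^n w = z} δ_w` converge to `μ`.
(Theorem of Brolin, Lyubich and Freire-Lopes-Mañé: these measures converge to the unique measure
of maximal entropy for every `z` outside the exceptional set, which has at most two points; this
measure has no atoms, in particular it does not charge the point at infinity.) -/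
def IsMaxEntropy (P : RatFunc ℂ) (μ : Measure ℂ) : Prop :=
  IsProbabilityMeasure μ ∧ ∀ᵐ z : ℂ, ∀ φ : ℂ → ℝ, Continuous φ → HasCompactSupport φ →
    Tendsto (fun n : ℕ => ((fibre (iter P n) z).map φ).sum / (deg P : ℝ) ^ n) atTop
      (𝓝 (∫ w, φ w ∂μ))

/-- the semigroup `E(P)` of all rational functions of degree at least two with the same measure of
maximal entropy as `P` -/
def E (P : RatFunc ℂ) : Set (RatFunc ℂ) :=
  {X | 2 ≤ deg X ∧ ∃ μ : Measure ℂ, IsMaxEntropy X μ ∧ IsMaxEntropy P μ}

/-- Every rational function of degree at least two has exactly one measure of maximal entropy, and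
for every non-special `P` of degree at least two there are finitely many rational functions such
that `X ∈ E(P)` if and only if `X = Y ∘ P^k` for some member `Y` of the list and some `k ≥ 0`. -/
theorem result :
    (∀ P : RatFunc ℂ, 2 ≤ deg P → ∃! μ : Measure ℂ, IsMaxEntropy P μ) ∧
    ∀ P : RatFunc ℂ, 2 ≤ deg P → ¬ Special P →
      ∃ L : Finset (RatFunc ℂ), ∀ X : RatFunc ℂ,
        X ∈ E P ↔ ∃ Y ∈ L, ∃ k : ℕ, X = comp Y (iter P k) := by
  refine ⟨fun P hP => ?_, fun P hP hs => ?_⟩
  · obtain ⟨μ, h1, h2⟩ := Pool.Agent.Lev.t_exun P hP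
    exact ⟨μ, h1, h2⟩
  · exact Pool.Agent.Lev.t_t297 P hP hs

end Pool.Agent.Results.MP_297da0_an.FiniteDescription
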